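import Pool.Agent.helper461_mg.Disc4

/-!
# Margulis' injectivity radius conjecture over number fields of large root discriminant

Fix `δ > 0`, as small as one likes. Number fields `k`, of any degree `m`, are considered whose root
discriminant is at least `δ m`. For each degree `m` this excludes finitely many fields only. The
torsion-free arithmetic groups over these fields, realized by integral matrices of a fixed size `n`,
with one noncompact embedding, form a uniformly discrete family. With at most `s` noncompact
embeddings the same is proved in the following cases.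

* `k` has a subfield `F` with `[k : F] ≤ s` and root discriminant at least `δ [F : ℚ]`, and all the
  noncompact embeddings agree on `F`. (For instance `F = k` if there is one noncompact embedding; or
  `k` is a quadratic extension of a totally real field `F` and the noncompact embeddings are the two
  complex ones, as for arithmetic groups in complex Lie groups.)
* More generally, different restrictions of noncompact embeddings to `F` are independent in the weak
  sense that the field generated by the two conjugates of `F` is of degree larger than `s n ^ 2 m`.
  (For `F = k` the degree of that field is `m (m - 1)` if the Galois group of `k` is doubly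
  transitive on the embeddings, so that this holds if `m > s n ^ 2 + 1`.)
* `k` is a Galois extension of the rational numbers, and each subfield `F` of `k` with `[k : F]` at
  most the number of noncompact embeddings has root discriminant at least `δ [F : ℚ]`.

Nothing is assumed on the factorization of any prime number in `k`. For large `δ` the lower bound for
`s n log |l|`, where `l` is an eigenvalue of `ρ γ`, is of order `(log δ) / 2`: the length of the
shortest closed geodesic tends to infinity with the quotient of root discriminant and degree.

Method. Let `x` be an eigenvalue of `r γ` that is not a root of unity, in an extension `L` of `k` of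
degree at most `n`, and let `M` be the smallest of the fields `ℚ (x ^ j)`. Some embedding of `M` has
only extensions to `L` which lie over noncompact embeddings of `k`. In the first two cases it follows
that `M` contains `F`. In the third case let `F` be the intersection of `M` with `k`; by linear
disjointness the degree of `M` over `F` is at most `n`, and `[k : F] = [k M : M]` is at most the
number of noncompact embeddings, because an embedding of `k M` over `M` is determined by its
restriction to `k`. So the discriminant of `M` is large, and hence also the discriminant of the norm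
`β` of `x` to `M`, which generates `M` together with all its powers. A theorem of Dobrowolski's type,
in terms of the discriminant, for algebraic integers all whose powers are of the same degree
(`Pool.Agent.Y399.RD.field_bound`, in the starting files), or Mahler's inequality for the
discriminant if `δ` is large, gives a lower bound for the Mahler measure of `β`.

`Pool.Agent.H225R3.MargDefs` contains the definitions: `Realization ρ Γ k n S` (a homomorphism `r`
from `Γ` to the `n` by `n` matrices over the ring of integers of the number field `k`, bounded under
all embeddings outside `S`, such that for `σ` in `S` the eigenvalues of `σ (r γ)` are eigenvalues of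
`ρ γ`, and such that only `1` is mapped to a unipotent matrix) and `UniformlyDiscrete` (there is an
identity neighbourhood `U` such that `g U g⁻¹` meets every group of the family in the identity only).
-/

set_option autoImplicit false

namespace Pool.Agent.Results.MP_162bbe_gt.LargeDiscriminants

open NumberField Module Pool.Agent.H225R3.Marg

universe u

/-- The absolute value of the discriminant of the number field `F`, of degree `m`, is at least
`(δ m) ^ m`. -/
def LargeDiscriminant (δ : ℝ) (F : Type) [Field F] [NumberField F] : Prop :=
  (δ * finrank ℚ F) ^ finrank ℚ F ≤ |(discr F : ℝ)|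

/-- The degree of the field generated by two conjugates of the field `k`. -/
noncomputable def compositumDegree {k : Type} [Field k] (σ σ' : k →+* ℂ) : ℕ :=
  finrank ℚ (IntermediateField.adjoin ℚ (Set.range σ ∪ Set.range σ'))

/-- The condition on the number field `k` and the set `S` of the noncompact embeddings. The second
part of the first alternative is void if all elements of `S` agree on `F`, for instance if `S` has
only one element. -/
def Condition (δ : ℝ) (s n : ℕ) (k : Type) [Field k] [NumberField k] (S : Finset (k →+* ℂ)) :
    Prop :=
  (∃ F : IntermediateField ℚ k, finrank F k ≤ s ∧ LargeDiscriminant δ F ∧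
    ∀ σ ∈ S, ∀ σ' ∈ S, σ.comp (algebraMap F k) ≠ σ'.comp (algebraMap F k) →
      s * n ^ 2 * finrank ℚ k <
        compositumDegree (σ.comp (algebraMap F k)) (σ'.comp (algebraMap F k))) ∨
  (IsGalois ℚ k ∧ ∀ F : IntermediateField ℚ k, finrank F k ≤ S.card → LargeDiscriminant δ F)

/-- There is no element of finite order other than the identity. -/
def TorsionFree {G : Type*} [Group G] (Γ : Subgroup G) : Prop :=
  ∀ γ ∈ Γ, ∀ N : ℕ, 0 < N → γ ^ N = 1 → γ = 1

/-- The torsion-free subgroups `Γ` of `G` that have a realization by matrices of size `n`, with at
most `s` noncompact embeddings, over a number field `k` with `Condition δ s n k S`. -/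
def Family (δ : ℝ) (s n : ℕ) {G : Type*} [Group G] {M : ℕ}
    (ρ : G →* Matrix (Fin M) (Fin M) ℂ) : Set (Subgroup G) :=
  {Γ | TorsionFree Γ ∧
    ∃ (k : Type) (_ : Field k) (_ : NumberField k) (S : Finset (k →+* ℂ))
      (_ : Realization ρ Γ k n S), S.card ≤ s ∧ Condition δ s n k S}

/-- There is a constant `c > 0` such that for all `δ > 0`, `s` and `n` the following holds. (1) If the
torsion-free subgroup `Γ` of a group `G` has a realization by matrices of size `n`, with at most `s`
noncompact embeddings, over a number field with the condition, then for each `γ ≠ 1` in `Γ` the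
matrix `ρ γ` has an eigenvalue `l` with `|l| > 1` such that `s n log |l|` is at least
`c (log log (16 + s n / δ) / log (16 + s n / δ)) ^ 3` and at least `(log (δ / (s n)) - 1) / 2`. (2) If `ρ` is continuous (for instance
the complexified adjoint representation of a semisimple Lie group), the family of all these
subgroups of `G` is uniformly discrete. -/
theorem result : ∃ c : ℝ, 0 < c ∧ ∀ (δ : ℝ) (s n : ℕ), 0 < δ →
    (∀ (G : Type u) [Group G] (M : ℕ) (ρ : G →* Matrix (Fin M) (Fin M) ℂ) (Γ : Subgroup G)
      (k : Type) [Field k] [NumberField k] (S : Finset (k →+* ℂ)) (_ : Realization ρ Γ k n S),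
      TorsionFree Γ → S.card ≤ s → Condition δ s n k S → ∀ γ : Γ, γ ≠ 1 →
        ∃ l : ℂ, IsEig (ρ γ) l ∧ 1 < ‖l‖ ∧
          c * (Real.log (Real.log (16 + s * n / δ)) / Real.log (16 + s * n / δ)) ^ 3 ≤
            s * n * Real.log ‖l‖ ∧
          (Real.log (δ / (s * n)) - 1) / 2 ≤ s * n * Real.log ‖l‖) ∧
    (∀ (G : Type u) [Group G] [TopologicalSpace G] (M : ℕ) (ρ : G →* Matrix (Fin M) (Fin M) ℂ),
      Continuous ρ → UniformlyDiscrete (Family δ s n ρ)) := by
  obtain ⟨c, hc, hgap⟩ := Pool.Agent.helper461_mg.gapD3
  have cond : ∀ (δ : ℝ) (s n : ℕ) (k : Type) [Field k] [NumberField k] (S : Finset (k →+* ℂ)),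
      Condition δ s n k S → Pool.Agent.helper461_mg.Large3 δ s n k S := by
    intro δ s n k _ _ S h
    exact h
  refine ⟨c, hc, fun δ s n hδ => ⟨?_, ?_⟩⟩
  · intro G _ M ρ Γ k _ _ S R htf hs hcond γ hγ
    have hnil : ∀ N : ℕ, 0 < N → ¬ IsNilpotent (R.r γ ^ N - 1) := by
      intro N hN h0
      rw [← map_pow] at h0
      have h1 := R.unipotent _ h0
      have h2 : (γ : G) ^ N = 1 := congrArg Subtype.val h1
      exact hγ (Subtype.ext (htf _ γ.2 N hN h2))
    have hs0 : 0 < s := (Finset.card_pos.mpr R.nonempty).trans_le hs
    obtain ⟨σ, hσ, l, hl, hl1, hlow⟩ := hgap k n s S (R.r γ) δ hδ hs hs0 (cond δ s n k S hcond)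
      ((Group.isUnit γ).map R.r) (fun σ hσ l hl => R.comp' _ σ hσ l hl) hnil
    have hl' : IsEig (conjMat σ (R.r γ)) l := hl
    have h4 : ((s * n : ℕ) : ℝ) = (s : ℝ) * n := by push_cast; ring
    rw [h4] at hlow
    have h5 := le_trans (le_max_left _ _) hlow
    have h6 := le_trans (le_max_right _ _) hlow
    refine ⟨l, R.eig σ hσ γ l hl', hl1, h5, ?_⟩
    have h7 : Real.log (δ / (s * n)) = -Real.log (s * n / δ) := by
      rw [← Real.log_inv, inv_div]
    rw [h7]
    linarith
  · intro G _ _ M ρ hρ
    rcases Nat.eq_zero_or_pos n with hn | hn
    · subst hn
      refine ⟨Set.univ, Filter.univ_mem, ?_⟩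
      rintro Γ ⟨_, k, _, _, S, R, _, _⟩ g v _ hΓ
      have h0 : R.r ⟨g * v * g⁻¹, hΓ⟩ - 1 = 0 := by
        ext i
        exact i.elim0
      have h1 := R.unipotent ⟨g * v * g⁻¹, hΓ⟩ (by rw [h0]; exact IsNilpotent.zero)
      exact congrArg Subtype.val h1
    · rcases Nat.eq_zero_or_pos s with hs0 | hs0
      · subst hs0
        refine ⟨Set.univ, Filter.univ_mem, ?_⟩
        rintro Γ ⟨_, k, _, _, S, R, hs, _⟩
        exact absurd R.nonempty (Finset.not_nonempty_iff_eq_empty.mpr
          (Finset.card_eq_zero.mp (Nat.le_zero.mp hs)))
      have hT0 : (0 : ℝ) < ((s * n : ℕ) : ℝ) / δ := by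
        have : (0 : ℝ) < ((s * n : ℕ) : ℝ) := by exact_mod_cast Nat.mul_pos hs0 hn
        positivity
      obtain ⟨ε, hε, h⟩ := Pool.Agent.Y399.MG.exists_eps (s * n)
        (Pool.Agent.helper461_mg.bd2 c ((s * n : ℕ) / δ))
        (Pool.Agent.helper461_mg.bd2_pos hc hT0)
      refine ⟨_, nhd ρ hρ ε hε, ?_⟩
      rintro Γ ⟨htf, k, _, _, S, R, hs, hcond⟩ g v hv hΓ
      refine final_step' R htf ε hε g v hv hΓ fun hnil => ?_
      obtain ⟨σ, hσ, l, hl, hl1, hlow⟩ := hgap k n s S (R.r ⟨g * v * g⁻¹, hΓ⟩) δ hδ hs hs0
        (cond δ s n k S hcond) ((Group.isUnit (⟨g * v * g⁻¹, hΓ⟩ : Γ)).map R.r)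
        (fun σ hσ l hl => R.comp' _ σ hσ l hl) hnil
      exact ⟨σ, hσ, l, hl, h l hlow hl1⟩

end Pool.Agent.Results.MP_162bbe_gt.LargeDiscriminants
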